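import Pool.Agent.H794R3.GJ.Core

/-!
# Iterated group jumps are not single group jumps

For equality on any Polish space with at least two points and for all countably infinite groups
`G` and `H`, the iterated jump is not Borel reducible to the `K`-jump, for any countable `K`.
-/

set_option autoImplicit false

namespace Pool.Agent.Results.MP_9b97c3_lc.EqualityAllInfiniteGroups

open Pool.Agent.H794R3.GJ

/-- For every Polish space `X` with at least two points, with `E` equality on `X`, for all
countably infinite groups `G` and `H` and for every countable group `K`, the iterated jump
`(E^[G])^[H]` is not Borel reducible to `E^[K]`; in particular no countable group `K` makes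
them Borel bi-reducible. -/
theorem result (X : Type) [TopologicalSpace X] [PolishSpace X] [Nontrivial X]
    (G H : Type) [Group G] [Countable G] [Infinite G] [Group H] [Countable H] [Infinite H]
    (K : Type) [Group K] [Countable K] :
    ¬ BorelReducible (jump H (jump G (fun x y : X => x = y)))
        (jump K (fun x y : X => x = y)) := by
  apply core
  intro y
  refine (Set.countable_range (fun k : K => act k y)).mono ?_
  rintro y' ⟨k, hk⟩
  exact ⟨k, funext fun j => hk j⟩

end Pool.Agent.Results.MP_9b97c3_lc.EqualityAllInfiniteGroups
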